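import Pool.Agent.helper36.PT.Spec

set_option autoImplicit false

namespace Pool.Agent.PT

open Finset Pool.Agent.helper71.AA

theorem WKS_pair (h1 : PSM_stmt) (a : ℕ → ℂ) (g g' : ℕ → ℝ) (m v : ℕ) (B B' S : ℝ) (hmv : m ≤ v)
    (hg0 : ∀ n, m ≤ n → 0 ≤ g n) (hgB : ∀ n, m ≤ n → g n ≤ B) (hga : ∀ n, m ≤ n → g (n + 1) ≤ g n)
    (hg0' : ∀ n, m ≤ n → 0 ≤ g' n) (hgB' : ∀ n, m ≤ n → g' n ≤ B')
    (hga' : ∀ n, m ≤ n → g' (n + 1) ≤ g' n)
    (hS : ∀ v', m ≤ v' → v' ≤ v → ‖∑ n ∈ Ico m v', a n‖ ≤ S) (hB0 : 0 ≤ B) (hB0' : 0 ≤ B') :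
    ‖∑ n ∈ Ico m v, ((g n * g' n : ℝ) : ℂ) * a n‖ ≤ B * B' * S := by
  refine h1 a (fun n => g n * g' n) m v (B * B') S (mul_nonneg hB0 hB0') hmv ?_ ?_ hS
  · intro n hn
    rw [Finset.mem_Ico] at hn
    exact ⟨mul_nonneg (hg0 n hn.1) (hg0' n hn.1),
      mul_le_mul (hgB n hn.1) (hgB' n hn.1) (hg0' n hn.1) hB0⟩
  · intro n hn _
    exact mul_le_mul (hga n hn) (hga' n hn) (hg0' (n + 1) (by omega)) (hg0 n hn)

theorem WKS_zero (N x : ℝ) (k : ℤ) (e : ℕ) (hN : 0 < N) (hx : 0 < x) (he : 1 ≤ e)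
    (h : x * e ≤ N * |(k : ℝ)|) : wk N k (x * e) = 0 := by
  have he0 : (0 : ℝ) < e := by exact_mod_cast he
  have hxe : 0 < x * e := mul_pos hx he0
  unfold wk Tri
  have h2 : 1 ≤ |N * (k : ℝ) / (x * e)| := by
    rw [abs_div, abs_mul, abs_of_pos hN, abs_of_pos hxe, one_le_div hxe]
    exact h
  rw [max_eq_left (by linarith), mul_zero]

theorem WKS_pos (N x : ℝ) (k : ℤ) (e : ℕ) (hN : 0 < N) (hx : 0 < x) (he : 1 ≤ e)
    (h : N * |(k : ℝ)| < x * e) :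
    wk N k (x * e) = N / (x * e) - N ^ 2 * |(k : ℝ)| / (x * e) ^ 2 := by
  have he0 : (0 : ℝ) < e := by exact_mod_cast he
  have hxe : 0 < x * e := mul_pos hx he0
  unfold wk Tri
  have h2 : |N * (k : ℝ) / (x * e)| = N * |(k : ℝ)| / (x * e) := by
    rw [abs_div, abs_mul, abs_of_pos hN, abs_of_pos hxe]
  have h3 : N * |(k : ℝ)| / (x * e) ≤ 1 := by
    rw [div_le_one hxe]; exact h.le
  rw [h2, max_eq_right (by linarith)]
  field_simp

theorem WKS_g1 (N x : ℝ) (hN : 0 < N) (hx : 0 < x) (u : ℕ) (hu : 1 ≤ u) (n : ℕ) (hn : u ≤ n) :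
    0 ≤ N / (x * n) ∧ N / (x * n) ≤ N / (x * u) ∧ N / (x * (n + 1 : ℕ)) ≤ N / (x * n) := by
  have hu0 : (0 : ℝ) < u := by exact_mod_cast hu
  have hn0 : (u : ℝ) ≤ n := by exact_mod_cast hn
  have hn1 : (0 : ℝ) < n := hu0.trans_le hn0
  refine ⟨by positivity, ?_, ?_⟩
  · exact div_le_div_of_nonneg_left hN.le (by positivity) (mul_le_mul_of_nonneg_left hn0 hx.le)
  · refine div_le_div_of_nonneg_left hN.le (by positivity) (mul_le_mul_of_nonneg_left ?_ hx.le)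
    push_cast
    linarith

theorem WKS_g2 (N x : ℝ) (k : ℤ) (hN : 0 < N) (hx : 0 < x) (u : ℕ) (hu : 1 ≤ u) (n : ℕ)
    (hn : u ≤ n) (h : N * |(k : ℝ)| < x * n) :
    0 ≤ N ^ 2 * |(k : ℝ)| / (x * n) ^ 2 ∧ N ^ 2 * |(k : ℝ)| / (x * n) ^ 2 ≤ N / (x * u) ∧
      N ^ 2 * |(k : ℝ)| / (x * (n + 1 : ℕ)) ^ 2 ≤ N ^ 2 * |(k : ℝ)| / (x * n) ^ 2 := by
  have hu0 : (0 : ℝ) < u := by exact_mod_cast hu
  have hn0 : (u : ℝ) ≤ n := by exact_mod_cast hn
  have hn1 : (0 : ℝ) < n := hu0.trans_le hn0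
  have hxn : 0 < x * n := mul_pos hx hn1
  refine ⟨by positivity, ?_, ?_⟩
  · calc N ^ 2 * |(k : ℝ)| / (x * n) ^ 2 = N / (x * n) * (N * |(k : ℝ)| / (x * n)) := by
          field_simp
      _ ≤ N / (x * n) * 1 := by
          apply mul_le_mul_of_nonneg_left _ (by positivity)
          rw [div_le_one hxn]; exact h.le
      _ ≤ N / (x * u) := by rw [mul_one]; exact (WKS_g1 N x hN hx u hu n hn).2.1
  · apply div_le_div_of_nonneg_left (by positivity) (by positivity)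
    apply pow_le_pow_left₀ hxn.le
    apply mul_le_mul_of_nonneg_left _ hx.le
    push_cast
    linarith

/-- The weights are removed. -/
theorem WKS (h1 : PSM_stmt) : WKS_stmt := by
  intro N x x' S k k' u v a hN hx hx' hu huv hS
  have hu0 : (0 : ℝ) < u := by exact_mod_cast hu
  have hS0 : 0 ≤ S := by
    have := hS u u le_rfl le_rfl huv
    simpa using this
  obtain ⟨m, hm⟩ : ∃ m : ℕ, m = max u (max (⌊N * |(k : ℝ)| / x⌋₊ + 1)
    (⌊N * |(k' : ℝ)| / x'⌋₊ + 1)) := ⟨_, rfl⟩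
  have hum : u ≤ m := by rw [hm]; exact le_max_left _ _
  have hm1 : ⌊N * |(k : ℝ)| / x⌋₊ + 1 ≤ m := by
    rw [hm]; exact (le_max_left _ _).trans (le_max_right _ _)
  have hm2 : ⌊N * |(k' : ℝ)| / x'⌋₊ + 1 ≤ m := by
    rw [hm]; exact (le_max_right _ _).trans (le_max_right _ _)
  have hbig : ∀ n, m ≤ n → N * |(k : ℝ)| < x * n := by
    intro n hn
    have h2 : N * |(k : ℝ)| / x < (⌊N * |(k : ℝ)| / x⌋₊ + 1 : ℕ) := by
      push_cast; exact Nat.lt_floor_add_one _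
    have h3 : ((⌊N * |(k : ℝ)| / x⌋₊ + 1 : ℕ) : ℝ) ≤ n := by exact_mod_cast hm1.trans hn
    have h4 := h2.trans_le h3
    rw [div_lt_iff₀ hx] at h4
    linarith [mul_comm x (n : ℝ)]
  have hbig' : ∀ n, m ≤ n → N * |(k' : ℝ)| < x' * n := by
    intro n hn
    have h2 : N * |(k' : ℝ)| / x' < (⌊N * |(k' : ℝ)| / x'⌋₊ + 1 : ℕ) := by
      push_cast; exact Nat.lt_floor_add_one _
    have h3 : ((⌊N * |(k' : ℝ)| / x'⌋₊ + 1 : ℕ) : ℝ) ≤ n := by exact_mod_cast hm2.trans hn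
    have h4 := h2.trans_le h3
    rw [div_lt_iff₀ hx'] at h4
    linarith [mul_comm x' (n : ℝ)]
  have hsmall : ∀ n, u ≤ n → n < m →
      ((wk N k (x * n) * wk N k' (x' * n) : ℝ) : ℂ) * a n = 0 := by
    intro n hn hnm
    have hn1 : 1 ≤ n := hu.trans hn
    rw [hm, lt_max_iff, lt_max_iff] at hnm
    rcases hnm with h | h | h
    · omega
    · have h2 : n ≤ ⌊N * |(k : ℝ)| / x⌋₊ := by omega
      have h3 : (n : ℝ) ≤ N * |(k : ℝ)| / x :=
        (Nat.cast_le.mpr h2).trans (Nat.floor_le (by positivity))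
      rw [le_div_iff₀ hx] at h3
      rw [WKS_zero N x k n hN hx hn1 (by linarith [mul_comm x (n : ℝ)])]
      simp
    · have h2 : n ≤ ⌊N * |(k' : ℝ)| / x'⌋₊ := by omega
      have h3 : (n : ℝ) ≤ N * |(k' : ℝ)| / x' :=
        (Nat.cast_le.mpr h2).trans (Nat.floor_le (by positivity))
      rw [le_div_iff₀ hx'] at h3
      rw [WKS_zero N x' k' n hN hx' hn1 (by linarith [mul_comm x' (n : ℝ)])]
      simp
  have hF : 0 ≤ N / (x * u) * (N / (x' * u)) := by positivity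
  rcases le_or_gt v m with hvm | hmv
  · have hz : ∑ e ∈ Ico u v, ((wk N k (x * e) * wk N k' (x' * e) : ℝ) : ℂ) * a e = 0 := by
      apply Finset.sum_eq_zero
      intro e he
      rw [Finset.mem_Ico] at he
      exact hsmall e he.1 (by omega)
    rw [hz, norm_zero]
    have : 4 * (N / (x * u)) * (N / (x' * u)) * S = 4 * (N / (x * u) * (N / (x' * u))) * S := by
      ring
    rw [this]
    positivity
  · have hsplit : ∑ e ∈ Ico u v, ((wk N k (x * e) * wk N k' (x' * e) : ℝ) : ℂ) * a e =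
        ∑ e ∈ Ico m v, ((wk N k (x * e) * wk N k' (x' * e) : ℝ) : ℂ) * a e := by
      rw [← Finset.sum_Ico_consecutive _ hum hmv.le]
      rw [Finset.sum_eq_zero (s := Ico u m), zero_add]
      intro e he
      rw [Finset.mem_Ico] at he
      exact hsmall e he.1 he.2
    rw [hsplit]
    -- the four pieces
    have hSm : ∀ v', m ≤ v' → v' ≤ v → ‖∑ n ∈ Ico m v', a n‖ ≤ S :=
      fun v' h2 h3 => hS m v' hum h2 h3
    have hB : 0 ≤ N / (x * u) := by positivity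
    have hB' : 0 ≤ N / (x' * u) := by positivity
    have G1 := fun n (hn : m ≤ n) => WKS_g1 N x hN hx u hu n (hum.trans hn)
    have G1' := fun n (hn : m ≤ n) => WKS_g1 N x' hN hx' u hu n (hum.trans hn)
    have G2 := fun n (hn : m ≤ n) => WKS_g2 N x k hN hx u hu n (hum.trans hn) (hbig n hn)
    have G2' := fun n (hn : m ≤ n) => WKS_g2 N x' k' hN hx' u hu n (hum.trans hn) (hbig' n hn)
    have s11 := WKS_pair h1 a (fun n => N / (x * n)) (fun n => N / (x' * n)) m v _ _ S hmv.le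
      (fun n hn => (G1 n hn).1) (fun n hn => (G1 n hn).2.1) (fun n hn => (G1 n hn).2.2)
      (fun n hn => (G1' n hn).1) (fun n hn => (G1' n hn).2.1) (fun n hn => (G1' n hn).2.2)
      hSm hB hB'
    have s12 := WKS_pair h1 a (fun n => N / (x * n))
      (fun n => N ^ 2 * |(k' : ℝ)| / (x' * n) ^ 2) m v _ _ S hmv.le
      (fun n hn => (G1 n hn).1) (fun n hn => (G1 n hn).2.1) (fun n hn => (G1 n hn).2.2)
      (fun n hn => (G2' n hn).1) (fun n hn => (G2' n hn).2.1) (fun n hn => (G2' n hn).2.2)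
      hSm hB hB'
    have s21 := WKS_pair h1 a (fun n => N ^ 2 * |(k : ℝ)| / (x * n) ^ 2)
      (fun n => N / (x' * n)) m v _ _ S hmv.le
      (fun n hn => (G2 n hn).1) (fun n hn => (G2 n hn).2.1) (fun n hn => (G2 n hn).2.2)
      (fun n hn => (G1' n hn).1) (fun n hn => (G1' n hn).2.1) (fun n hn => (G1' n hn).2.2)
      hSm hB hB'
    have s22 := WKS_pair h1 a (fun n => N ^ 2 * |(k : ℝ)| / (x * n) ^ 2)
      (fun n => N ^ 2 * |(k' : ℝ)| / (x' * n) ^ 2) m v _ _ S hmv.le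
      (fun n hn => (G2 n hn).1) (fun n hn => (G2 n hn).2.1) (fun n hn => (G2 n hn).2.2)
      (fun n hn => (G2' n hn).1) (fun n hn => (G2' n hn).2.1) (fun n hn => (G2' n hn).2.2)
      hSm hB hB'
    have hdec : ∑ e ∈ Ico m v, ((wk N k (x * e) * wk N k' (x' * e) : ℝ) : ℂ) * a e =
        (∑ n ∈ Ico m v, ((N / (x * n) * (N / (x' * n)) : ℝ) : ℂ) * a n -
          ∑ n ∈ Ico m v, ((N / (x * n) * (N ^ 2 * |(k' : ℝ)| / (x' * n) ^ 2) : ℝ) : ℂ) * a n) -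
        (∑ n ∈ Ico m v, ((N ^ 2 * |(k : ℝ)| / (x * n) ^ 2 * (N / (x' * n)) : ℝ) : ℂ) * a n -
          ∑ n ∈ Ico m v, ((N ^ 2 * |(k : ℝ)| / (x * n) ^ 2 *
            (N ^ 2 * |(k' : ℝ)| / (x' * n) ^ 2) : ℝ) : ℂ) * a n) := by
      rw [← Finset.sum_sub_distrib, ← Finset.sum_sub_distrib, ← Finset.sum_sub_distrib]
      apply Finset.sum_congr rfl
      intro n hn
      rw [Finset.mem_Ico] at hn
      have hn1 : 1 ≤ n := hu.trans (hum.trans hn.1)
      rw [WKS_pos N x k n hN hx hn1 (hbig n hn.1), WKS_pos N x' k' n hN hx' hn1 (hbig' n hn.1)]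
      rw [← sub_mul, ← sub_mul, ← sub_mul]
      congr 1
      rw [← Complex.ofReal_sub, ← Complex.ofReal_sub, ← Complex.ofReal_sub]
      congr 1
      ring
    rw [hdec]
    have t1 := norm_sub_le
      (∑ n ∈ Ico m v, ((N / (x * n) * (N / (x' * n)) : ℝ) : ℂ) * a n)
      (∑ n ∈ Ico m v, ((N / (x * n) * (N ^ 2 * |(k' : ℝ)| / (x' * n) ^ 2) : ℝ) : ℂ) * a n)
    have t2 := norm_sub_le
      (∑ n ∈ Ico m v, ((N ^ 2 * |(k : ℝ)| / (x * n) ^ 2 * (N / (x' * n)) : ℝ) : ℂ) * a n)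
      (∑ n ∈ Ico m v, ((N ^ 2 * |(k : ℝ)| / (x * n) ^ 2 *
            (N ^ 2 * |(k' : ℝ)| / (x' * n) ^ 2) : ℝ) : ℂ) * a n)
    refine (norm_sub_le _ _).trans ?_
    have : 4 * (N / (x * u)) * (N / (x' * u)) * S =
      (N / (x * u) * (N / (x' * u)) * S + N / (x * u) * (N / (x' * u)) * S) +
      (N / (x * u) * (N / (x' * u)) * S + N / (x * u) * (N / (x' * u)) * S) := by ring
    rw [this]
    exact add_le_add (t1.trans (add_le_add s11 s12)) (t2.trans (add_le_add s21 s22))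

end Pool.Agent.PT
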